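import Pool.Agent.L0h23.AD.Real
import Pool.Agent.L0h23.AD.Field
import Pool.Agent.L0h23.AD.Up
import Pool.Agent.L0h23.AD.Card

/-!
# The diameter of an undirected graph without weights: two or three

The lower bounds of the start results `TensorCircuits` (real numbers) and `FieldCircuits` (finite
fields) are about distances in directed graphs with weights of `log n` bits. Here we prove bounds of
the same kind for a much easier output and much easier inputs: one bit, whether the diameter of an
undirected graph without weights, which is known to be `2` or `3`, is `3`. (A number `D` with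
`diam ≤ D < (3 / 2) diam` decides this, so the same bounds hold for approximations of the diameter
with a factor smaller than `3 / 2`; by a theorem of Aingworth, Chekuri, Indyk and Motwani the
factor `3 / 2` is possible in truly subcubic time without fast matrix multiplication.)

*The graphs* (`graph a`) have the `4 n + 2` vertices `x i`, `z j` (`i, j < n`), `y c` (`2 n` of them)
and two hubs. The hubs are adjacent to each other and to all `y c`, one hub is adjacent to all
`x i`, the other to all `z j`, and the adjacencies of `x i` and `y c` and of `z j` and `y c` are
arbitrary. So the diameter is `2` or `3`, and it is `3` if and only if some `x i` and `z j` have no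
common neighbour. The items of the input are the neighbourhoods of `x i`, for each `i`, and all
neighbourhoods of the `z j` together.

*The models* are those of the start results. The wires of a formula carry vectors of dimension `d`
over `ℝ`, or over a finite field `K`. The leaves are vectors, or matrices which are applied to a
vector, which depend in an arbitrary way on one item, or on `w` words of `c` bits, each of which is
an arbitrary function of one item. The gates are sums, arbitrary bilinear maps, sign tests of linear
forms (arbitrary functions of `e` linear forms over a finite field), and gates of any fan-in whose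
value is an arbitrary function of the number of the inputs for which a linear form is positive (not
zero). Circuits compute shared bits by branching programs which test such formulas. A leaf pays one
for each `x i` whose neighbourhood it sees, nothing for the neighbourhoods of the `z j`, and for a
shared bit the number of the `x i` on whose neighbourhoods the bit depends. The cost is the sum of
these prices, the number of the inner nodes of the branching programs and of the wires which lead to
counting gates; all other gates are free.

(1) `graph a` has `4 n + 2` vertices and diameter `2` or `3`.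
(2) Random circuits over `ℝ` with error probability at most `1 / 3` have cost `s` with
`n ^ 3 ≤ 1400 (w c + d ^ 2 log₂ n) s`.
(3) Random circuits over a finite field `K` with error probability at most `1 / 3` have cost `s` with
`n ^ 3 ≤ 300 (w c + log₂ n + d (d + |K| ^ e) log₂ |K|) s`.
(4) One real formula (`d = 1`, `w = 2`), without shared bits and without errors, has cost at most
`4 n ^ 2 (2 n / c + 1) + 2`. So for `log n ≤ c ≤ n` and constant `w`, `d` the bound (2) is optimal up to
a constant factor.

Proof of the lower bounds. Fix `i`. The other neighbourhoods can encode an arbitrary matrix of `n ^ 2`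
bits `z (j, k)`: `z j` is adjacent to `y k` (`k < n`) if and only if `z (j, k)` is false, and to exactly one
of the other `n` vertices `y`, the `j`-th. If the neighbours of `x i` are `y k` and all of the other `n`
vertices but the `j`-th, then `x i` and `z j'` have a common neighbour for `j' ≠ j`, and `x i` and `z j`
have none if and only if `z (j, k)` holds; the vertices `x i'`, `i' ≠ i`, are adjacent to all `y c`. So the
neighbourhood of `x i` can ask for `n ^ 2` bits, and the counting of subfunctions for the two models
(`Pool.Agent.N452.TF`, `Pool.Agent.N452.FF`) applies.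
-/

set_option autoImplicit false

namespace Pool.Agent.Results.MP_885423_lc.DiameterTwoOrThree

open Pool.Agent.TH697.Form (IsProb)
open Pool.Agent.TH697.Row (ApproximatesOn)
open Pool.Agent.N452.TF.Xor (pairs)
open Pool.Agent.L0h23.AD (V Item graph diamThree)

theorem result :
    (∀ n : ℕ, 1 ≤ n → ∀ a : (∀ i, Item n i),
      Nat.card (V n) = 4 * n + 2 ∧ ((graph a).diam = 2 ∨ (graph a).diam = 3) ∧
        (diamThree n a = true ↔ (graph a).diam = 3)) ∧
    (∀ n c w d : ℕ, 32 ≤ n → 1 ≤ c → 1 ≤ w → 1 ≤ d →
      ∀ (Ω : Type) [Fintype Ω] (μ : Ω → ℝ), IsProb μ →
        ∀ (s : ℕ) (C : Ω → Pool.Agent.N452.TF.Circuit (Option (Fin n)) (Item n) w (2 ^ c) d),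
          (∀ ω, (C ω).circ.cost (pairs n) ≤ s) →
          ApproximatesOn μ (fun ω => (C ω).eval) (fun _ => True) (diamThree n) →
          (n : ℝ) ^ 3 ≤ 1400 * (w * c + (d : ℝ) ^ 2 * Real.logb 2 n) * s) ∧
    (∀ (K : Type) [Field K] [Fintype K] [DecidableEq K] (n c w d e : ℕ),
      32 ≤ n → 1 ≤ c → 1 ≤ w → 1 ≤ e →
      ∀ (Ω : Type) [Fintype Ω] (μ : Ω → ℝ), IsProb μ →
        ∀ (s : ℕ) (C : Ω → Pool.Agent.N452.FF.Circuit K (Option (Fin n)) (Item n) w (2 ^ c) d e),
          (∀ ω, (C ω).circ.cost (pairs n) ≤ s) →
          ApproximatesOn μ (fun ω => (C ω).eval) (fun _ => True) (diamThree n) →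
          (n : ℝ) ^ 3 ≤ 300 * (w * c + Real.logb 2 n +
            d * (d + (Fintype.card K : ℝ) ^ e) * Real.logb 2 (Fintype.card K)) * s) ∧
    (∀ n c : ℕ, 1 ≤ n → 1 ≤ c →
      ∃ C : Pool.Agent.N452.TF.Circuit (Option (Fin n)) (Item n) 2 (2 ^ c) 1, C.bits = 0 ∧
        C.circ.cost (pairs n) ≤ 4 * n ^ 2 * (2 * n / c + 1) + 2 ∧
        ∀ a, C.eval a = diamThree n a) :=
  ⟨fun n hn _ => ⟨Pool.Agent.L0h23.AD.card_V n, Pool.Agent.L0h23.AD.diam_or ⟨0, hn⟩,
      decide_eq_true_iff⟩,
    fun _ _ _ _ hn hc hw hd _ _ μ hμ s C hs hC =>
      Pool.Agent.L0h23.AD.bound hn hc hw hd μ hμ s C hs hC,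
    fun _ _ _ _ _ _ _ _ _ hn hc hw he _ _ μ hμ s C hs hC =>
      Pool.Agent.L0h23.AD.bound_field hn hc hw he μ hμ s C hs hC,
    fun _ _ hn hc => Pool.Agent.L0h23.AD.upper_circuit hn hc⟩

end Pool.Agent.Results.MP_885423_lc.DiameterTwoOrThree
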