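import Mathlib
import Pool.Agent.L0h23.AF.MinPlus

/-!
# Shortest paths: circuits over formulas of bilinear maps over a finite field

A directed graph has three layers of `n` vertices and the edge weights `A i k` (first to second
layer), `B k j` (second to third layer) and `C i j` (first to third layer). Is some edge `i → j`
longer than a path `i → k → j` (`shortcut`)? This is the decision version of the min-plus product,
which has the same exponent as APSP. The items of the input are the weights of all edges at `i`, for
each vertex `i` of the first layer, and the matrix `B`.

*Formulas* (`Fml`). The wires carry vectors of dimension `d` over a finite field `K`. The leaves are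
vectors, or matrices which are applied to a vector (`act`), which depend in an arbitrary way on one
item, or on `w` words with `n ^ c` values, each of which is an arbitrary function of one item. The
gates are sums, arbitrary bilinear maps of two vectors (`bil`), arbitrary functions of the values of
`e` linear forms (`fn`), and gates `sym` of any fan-in whose value is an arbitrary function of the
number of the inputs for which a linear form is not zero. So products of matrices of order `d` over
`K` (for `K = ZMod 2` in particular branching programs of width `d` and their parity versions), and
the contractions of tensor networks over `K` whose intermediate tensors have at most `d` entries, are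
formulas of this kind.

*Circuits* (`Circuit`) compute shared bits; each bit is the result of a branching program whose tests
are formulas, and the leaves may also read the bits computed before. A leaf which reads an item pays
its price: one for the weights at a vertex `i`, nothing for `B`, and for a shared bit the number of the
vertices `i` on whose weights the bit depends. The cost is the sum of the prices of all leaves, plus
the number of inner nodes of the branching programs, plus the number of wires which lead to gates
`sym`. All other gates and constants are free.

We show that random circuits with error probability at most `1 / 3` on the graphs with weights in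
`{1, …, n + 1}` have cost `s` with
`n ^ 3 log₂ n ≤ 450 (w c log₂ n + d (d + |K| ^ e) log₂ |K|) s`. So for constant `w`, `c`, `K`, `e` vectors
of dimension `O (√(log n))` do not help (up to constant factors), and an algorithm of this kind which
makes only `n ^ (3 - ε)` readings computes with vectors of dimension `n ^ (ε / 2)` (up to logarithmic
factors), or with shared bits which depend on the weights at many vertices.

Proof. The weights at a vertex `i` can ask for `n ^ 2 ⌊log₂ n⌋` bits which are encoded in the other
weights (helper697). We count the functions of the weights at `i` which arise when the others are
fixed. If `r` leaves see them or bits which depend on them, there are `O (r)` places at which other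
parts enter, and the function of the vector at such a place is an affine map or a function of `e` linear
forms; the values of the shared bits are treated one after the other (`Pool.Agent.N452.FF.Core`,
`Pool.Agent.N452.FF.Prog`; Nechiporuk's method).
-/

set_option autoImplicit false

namespace Pool.Agent.Results.MP_885423_lc.FieldCircuits

open Pool.Agent.TH697.Form (IsProb)
open Pool.Agent.TH697.Row (ApproximatesOn)
open Pool.Agent.TH697.Form.MinPlus (Item InRange shortcut)
open Pool.Agent.N452.FF (Circuit)
open Pool.Agent.N452.TF.Xor (pairs)

theorem result : ∀ (K : Type) [Field K] [Fintype K] [DecidableEq K] (n c w d e : ℕ),
    16 ≤ n → 1 ≤ c → 1 ≤ w → 1 ≤ e →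
    ∀ (Ω : Type) [Fintype Ω] (μ : Ω → ℝ), IsProb μ →
      ∀ (s : ℕ) (C : Ω → Circuit K (Option (Fin n)) (Item n) w (n ^ c) d e),
        (∀ ω, (C ω).circ.cost (pairs n) ≤ s) →
        ApproximatesOn μ (fun ω => (C ω).eval) (InRange n (n + 1)) (shortcut n) →
        (n : ℝ) ^ 3 * Real.logb 2 n ≤ 450 * (w * c * Real.logb 2 n +
          d * (d + (Fintype.card K : ℝ) ^ e) * Real.logb 2 (Fintype.card K)) * s :=
  fun _ _ _ _ _ _ _ _ _ hn hc hw he _ _ μ hμ s C hs hC =>
    Pool.Agent.L0h23.AF.bound hn hc hw he μ hμ s C hs hC

end Pool.Agent.Results.MP_885423_lc.FieldCircuits
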