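import Mathlib
import Pool.Agent.L0h73.AP.Cor

/-!
# Shortest paths: circuits of linear inequalities

A directed graph has three layers of `n` vertices and the edge weights `A i k` (first to second
layer), `B k j` (second to third layer) and `C i j` (first to third layer). Is some edge `i → j`
longer than a path `i → k → j` (`shortcut`)? This is the decision version of the min-plus product,
which has the same exponent as APSP. Here all weights are in `{1, 2, 3}` (`InRange n 3`).

A gate of a circuit (`Circuit`) tests an inequality
`θ < ∑ φ i k (A i k) + ∑ ψ i j (C i j) + (weights of other gates)`. Here `φ i k` and `ψ i j` are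
arbitrary real functions of one weight; the last sum is taken over the earlier gates with the value
`true`, with arbitrary real weights; and the threshold `θ` is an arbitrary real function of the matrix
`B`. So a gate may test an arbitrary linear inequality, with real coefficients of any size, in all
weights of the graph, or in all their digits. The output is a function of the values of the gates, and
of `B`. Let `upper` be the number of gates which have wires from other gates, and let `sqrtSupp` be the
sum over the other gates of `√w`, where `w` is the number of the vertices of the first layer which have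
an influence on the sum of the gate.

1. Let `P r` be a random circuit (with the probability `μ r`) which gives the right answer with
   probability at least `2 / 3` for every graph with weights in `{1, 2, 3}`, and let its output
   function have at most `D ^ (|A| + 1)` subfunctions on every set `A` of gates (`FewSub`). Then
   `n ^ 3 ≤ 13 * (n * log₂ (3 D) + log₂ ((s + 1) D (n ^ 2 + 1)) * 𝔼 (n * upper + 16 * sqrtSupp))`,
   where `s` is the number of gates.
2. This holds, with `D = (n ^ 3 + 2) ^ 2`, if the output is a threshold function with arbitrary
   weights, or a symmetric function, of the gates, or a formula over the full binary basis or a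
   branching program (with at most `n ^ 3` nodes) which reads every gate at most once (`Simple`). In
   these cases, if `n ≥ 1000` and the mean of `upper` is at most `n ^ 2 / (600 log₂ n)`, then the
   number of gates is at least `n ^ (5 / 2) / (4000 log₂ n)`, and, if it is at most `n ^ 3`, the mean
   of `sqrtSupp` is at least `n ^ 3 / (4000 log₂ n)`.

So random depth two threshold circuits, formulas of linear inequalities, and branching programs whose
nodes test linear inequalities, need `n ^ (5 / 2 - o (1))` gates, also if all inequalities are dense,
and also if about `n ^ 2 / log n` further threshold gates may be used in any arrangement. If every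
inequality sees the edges of at most `n ^ δ` vertices of the first layer then `n ^ (3 - δ / 2 - o (1))`
gates are needed. (`n ^ 3` gates are enough.)

Proof. `n ^ 2` bits are encoded in the matrix `B`, and each vertex of the first layer can ask for one
of them. At a random half of the vertices `i` of the first layer the weights `A i k` are random and
the weights `C i j` forbid all shortcuts, at the others it is the other way round; one vertex is used
for the question. By the Littlewood-Offord problem (Sperner's theorem) a gate without wires from other
gates does not depend on the question, except with a probability whose sum over the vertices is at most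
`16 √w`. If few gates remain, then the output has few subfunctions, but it has to give nearly all the
`n ^ 2` bits. The use of the Littlewood-Offord problem for threshold circuits with few gates is due to
Kane and Williams (for Andreev's function).
-/

set_option autoImplicit false

namespace Pool.Agent.Results.MP_885423_lc.LinearInequalityGates

open Pool.Agent.TH697.Form (IsProb)
open Pool.Agent.TH697.Row (ApproximatesOn)
open Pool.Agent.TH697.Form.MinPlus (Item InRange shortcut)
open Pool.Agent.L0h73.LT (FewSub)
open Pool.Agent.L0h73.AP (Circuit Simple)

theorem result :
    (∀ n s D : ℕ, 1 ≤ D →
      ∀ (Ω : Type) [Fintype Ω] (μ : Ω → ℝ), IsProb μ →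
      ∀ P : Ω → Circuit n s, (∀ r, FewSub D (P r).top) →
        ApproximatesOn μ (fun r => (P r).eval) (InRange n 3) (shortcut n) →
        (n : ℝ) ^ 3 ≤ 13 * (n * Real.logb 2 (3 * D) +
          Real.logb 2 (((s : ℝ) + 1) * D * ((n : ℝ) ^ 2 + 1)) *
            ∑ r, μ r * (n * (P r).upper + 16 * (P r).sqrtSupp))) ∧
    (∀ n s : ℕ, 1000 ≤ n →
      ∀ (Ω : Type) [Fintype Ω] (μ : Ω → ℝ), IsProb μ →
      ∀ P : Ω → Circuit n s, (∀ r, Simple (P r).top) →
        ApproximatesOn μ (fun r => (P r).eval) (InRange n 3) (shortcut n) →
        ∑ r, μ r * (P r).upper ≤ (n : ℝ) ^ 2 / (600 * Real.logb 2 n) →
        (n : ℝ) ^ 2 * √(n : ℝ) ≤ 4000 * Real.logb 2 n * s ∧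
        (s ≤ n ^ 3 → (n : ℝ) ^ 3 ≤ 4000 * Real.logb 2 n * ∑ r, μ r * (P r).sqrtSupp)) := by
  refine ⟨?_, ?_⟩
  · intro n s D hD Ω _ μ hμ P hP hA
    exact Pool.Agent.L0h73.AP.main hD μ hμ P hP hA
  · intro n s hn Ω _ μ hμ P hP hA hU
    have hL := (Pool.Agent.L0h73.AP.log_bounds hn).1
    have hU' : 600 * Real.logb 2 n * ∑ r, μ r * (P r).upper ≤ (n : ℝ) ^ 2 := by
      rw [le_div_iff₀ (by linarith)] at hU
      linarith
    exact ⟨Pool.Agent.L0h73.AP.gates_bound hn μ hμ P hP hA hU',
      fun hs => Pool.Agent.L0h73.AP.mean_bound hn hs μ hμ P hP hA hU'⟩

end Pool.Agent.Results.MP_885423_lc.LinearInequalityGates
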