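import Mathlib
import Pool.Agent.L0h73.DI.Cor
import Pool.Agent.L0h23.AD.Card

/-!
# The diameter of an undirected graph, two or three: circuits of linear inequalities

*The graphs* (`graph a`, from the hand-in `DiameterTwoOrThree`) are undirected, without weights, and
have the `4 n + 2` vertices `x i`, `z j` (`i, j < n`), `y c` (`2 n` of them) and two hubs. The hubs are
adjacent to each other and to all `y c`, one hub is adjacent to all `x i`, the other to all `z j`, and
the adjacencies `a (some i) c` of `x i` and `y c`, and `b = a none` of the `z j` and the `y c`, are
arbitrary. The diameter is `2` or `3`, and it is `3` if and only if some `x i` and `z j` have no common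
neighbour.

*The circuits* (`Circuit`). A gate tests an inequality
`θ b < ∑ a i c + (weights of other gates)`, where the first sum is taken over all adjacent `x i` and
`y c`, the second one over the earlier gates with the value `true`, all coefficients are arbitrary real
numbers, and the threshold `θ b` is an arbitrary real function of all adjacencies of the `z j` and the
`y c`. So a gate may compute an arbitrary linear threshold function of all adjacencies in the graph.
The output is a function of the values of the gates, and of `b`. Let `upper` be the number of gates
which have wires from other gates, and let `sqrtSupp` be the sum over the other gates of `√w`, where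
`w` is the number of the `x i` which have an influence on the sum of the gate.

1. `graph a` has `4 n + 2` vertices and diameter `2` or `3`.
2. Let `n ≥ 300`, let `P r` be a random circuit (with the probability `μ r`) which decides whether the
   diameter is `3` with probability at least `2 / 3` for every `a`, and let its output function have at
   most `D ^ (|A| + 1)` subfunctions on every set `A` of gates (`FewSub`). Then
   `n ^ 3 ≤ 13 * (n * log₂ (3 D) + log₂ ((s + 1) D (n ^ 2 + 1)) * 𝔼 (n * upper + 16 * sqrtSupp))`,
   where `s` is the number of gates.
3. This holds, with `D = (n ^ 3 + 2) ^ 2`, if the output is a threshold function with arbitrary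
   weights, or a symmetric function, of the gates, or a formula over the full binary basis or a
   branching program (with at most `n ^ 3` nodes) which reads every gate at most once (`Simple`). In
   these cases, if `n ≥ 1000` and the mean of `upper` is at most `n ^ 2 / (600 log₂ n)`, then the
   number of gates is at least `n ^ (5 / 2) / (4000 log₂ n)`, and, if it is at most `n ^ 3`, the mean
   of `sqrtSupp` is at least `n ^ 3 / (4000 log₂ n)`.

So random depth two threshold circuits with arbitrary real weights which decide whether the diameter
of an undirected graph with `N` vertices is two or three, or which approximate the diameter with a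
factor smaller than `3 / 2`, need `N ^ (5 / 2 - o (1))` gates; so do formulas and branching programs
over linear inequalities, also if about `n ^ 2 / log n` further threshold gates may be used in any
arrangement. This is more than the time `N ^ 2.38` of the algorithms for all distances in such
graphs which use fast matrix multiplication.

Proof. Fix `i`. An arbitrary matrix of `n ^ 2 - n` bits `z (k, j)`, `k ≠ i`, is encoded in `b`: `z j` is
adjacent to `y k` (`k < n`, `k ≠ i`) if and only if `z (k, j)` is false, to `y i`, and to the `j`-th one of
the other `n` vertices `y`. The question of `x i` for the bit `z (k, j)` is: its neighbours are `y k` and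
all of the other `n` vertices `y` but the `j`-th. At a random half of the other vertices `x i'` the
adjacencies with the first `n` vertices `y` are random, and `x i'` is adjacent to all of the other `n`
vertices `y`; at the remaining ones it is the other way round; so these vertices have common neighbours
with all `z j`. By the Littlewood-Offord problem (Sperner's theorem) a gate without wires from other
gates does not depend on the question, except with a probability whose sum over `i` is at most
`16 √w`. If few gates remain, then the output has few subfunctions, but it has to give nearly all the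
bits.
-/

set_option autoImplicit false

namespace Pool.Agent.Results.MP_885423_lc.ThresholdGatesDiameter

open Pool.Agent.TH697.Form (IsProb)
open Pool.Agent.TH697.Row (ApproximatesOn)
open Pool.Agent.L0h23.AD (V Item graph diamThree)
open Pool.Agent.L0h73.LT (FewSub)
open Pool.Agent.L0h73.DI (Circuit Simple)

theorem result :
    (∀ n : ℕ, 1 ≤ n → ∀ a : (∀ i, Item n i),
      Nat.card (V n) = 4 * n + 2 ∧ ((graph a).diam = 2 ∨ (graph a).diam = 3) ∧
        (diamThree n a = true ↔ (graph a).diam = 3)) ∧
    (∀ n s D : ℕ, 300 ≤ n → 1 ≤ D →
      ∀ (Ω : Type) [Fintype Ω] (μ : Ω → ℝ), IsProb μ →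
      ∀ P : Ω → Circuit n s, (∀ r, FewSub D (P r).top) →
        ApproximatesOn μ (fun r => (P r).eval) (fun _ => True) (diamThree n) →
        (n : ℝ) ^ 3 ≤ 13 * (n * Real.logb 2 (3 * D) +
          Real.logb 2 (((s : ℝ) + 1) * D * ((n : ℝ) ^ 2 + 1)) *
            ∑ r, μ r * (n * (P r).upper + 16 * (P r).sqrtSupp))) ∧
    (∀ n s : ℕ, 1000 ≤ n →
      ∀ (Ω : Type) [Fintype Ω] (μ : Ω → ℝ), IsProb μ →
      ∀ P : Ω → Circuit n s, (∀ r, Simple (P r).top) →
        ApproximatesOn μ (fun r => (P r).eval) (fun _ => True) (diamThree n) →
        ∑ r, μ r * (P r).upper ≤ (n : ℝ) ^ 2 / (600 * Real.logb 2 n) →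
        (n : ℝ) ^ 2 * √(n : ℝ) ≤ 4000 * Real.logb 2 n * s ∧
        (s ≤ n ^ 3 → (n : ℝ) ^ 3 ≤ 4000 * Real.logb 2 n * ∑ r, μ r * (P r).sqrtSupp)) := by
  refine ⟨?_, ?_, ?_⟩
  · intro n hn a
    exact ⟨Pool.Agent.L0h23.AD.card_V n, Pool.Agent.L0h23.AD.diam_or ⟨0, hn⟩,
      decide_eq_true_iff⟩
  · intro n s D hn hD Ω _ μ hμ P hP hA
    exact Pool.Agent.L0h73.DI.main hn hD μ hμ P hP hA
  · intro n s hn Ω _ μ hμ P hP hA hU
    have hL := (Pool.Agent.L0h73.DI.log_bounds hn).1
    have hU' : 600 * Real.logb 2 n * ∑ r, μ r * (P r).upper ≤ (n : ℝ) ^ 2 := by
      rw [le_div_iff₀ (by linarith)] at hU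
      linarith
    exact ⟨Pool.Agent.L0h73.DI.gates_bound hn μ hμ P hP hA hU',
      fun hs => Pool.Agent.L0h73.DI.mean_bound hn hs μ hμ P hP hA hU'⟩

end Pool.Agent.Results.MP_885423_lc.ThresholdGatesDiameter
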